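import Pool.Agent.H.MP_b6c00a_lc.G

set_option autoImplicit false

namespace Pool.Agent.Results.MP_b6c00a_lc.Decidable

open Pool.Agent.H.MP_b6c00a_lc

theorem result (p : ℕ) (hp : 0 < p) :
    ComputablePred fun c => ∃ φ : Fm p, φ.code = c ∧ Valid φ :=
  dec_valid hp

end Pool.Agent.Results.MP_b6c00a_lc.Decidable
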